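import Pool.Agent.Lib.MP_5ce328_co.Full.MainFull

namespace Pool.Agent.Results.MP_5ce328_co.FullAnswer

/-- the number of vertices at even distance from `v`, with `v` itself counted -/
noncomputable def distEven {V : Type*} [Fintype V] (G : SimpleGraph V) (v : V) : ℕ :=
  Nat.card {u : V // Even (G.dist v u)}

/-- the second entry of the nondecreasing list of all degrees -/
def secondDegree {V : Type*} [Fintype V] (G : SimpleGraph V) [DecidableRel G.Adj] : ℕ :=
  ((Finset.univ.val.map fun v => G.degree v).sort (· ≤ ·)).getD 1 0

open Pool.Agent.MP5ce328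

theorem card_EV_le {V : Type*} [Fintype V] (G : SimpleGraph V) {k : ℕ} (v : V)
    (h : distEven G v ≤ 1 + k) : (EV G v).card ≤ k := by
  classical
  have h1 : distEven G v = (Finset.univ.filter (fun u => Even (G.dist v u))).card := by
    unfold distEven
    rw [Nat.card_eq_fintype_card, Fintype.card_subtype]
  have h2 : insert v (EV G v) ⊆ Finset.univ.filter (fun u => Even (G.dist v u)) := by
    intro u hu
    rw [Finset.mem_insert, mem_EV] at hu
    rw [Finset.mem_filter]
    refine ⟨Finset.mem_univ u, ?_⟩
    rcases hu with rfl | hu
    · rw [SimpleGraph.dist_self]; exact Even.zero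
    · exact hu.2
  have h3 := Finset.card_le_card h2
  rw [Finset.card_insert_of_notMem (by rw [mem_EV]; exact fun hc => hc.1 rfl)] at h3
  omega

/-- Every connected graph with more than one vertex in which, for every vertex, at most `1 + σ`
vertices are at even distance, where `σ` is the second smallest degree, has a Hamiltonian path. -/
theorem result {V : Type*} [Fintype V] [DecidableEq V] (G : SimpleGraph V) [DecidableRel G.Adj]
    (hG : G.Connected) (hn : 1 < Fintype.card V)
    (heven : ∀ v : V, distEven G v ≤ 1 + secondDegree G) :
    ∃ (a b : V) (p : G.Walk a b), p.IsHamiltonian := by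
  have : Nonempty V := hG.nonempty
  have : Nontrivial V := Fintype.one_lt_card_iff_nontrivial.1 hn
  obtain ⟨m, x, C, hm⟩ := exists_LP G
  obtain ⟨⟨w0, hw0⟩, s, hs⟩ := second_spec G hn (k := secondDegree G) rfl
  have hk : 1 ≤ secondDegree G := (hG.preconnected.degree_pos_of_nontrivial s).trans_le hs
  have h1 : m = Fintype.card V := by
    by_contra hc
    exact C.full hG hk w0 hw0 (fun v => card_EV_le G v (heven v)) (by omega)
  exact C.hamiltonian h1

end Pool.Agent.Results.MP_5ce328_co.FullAnswer
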